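import Pool.Agent.helper70.FI.SpecQ1

/-!
# Row QES of project fi (MP_baa4d7_al), block Q1
-/

set_option autoImplicit false

namespace Pool.Agent.FI

open Pool.Agent.helper58.DC Pool.Agent.DI Pool.Agent.GR Pool.Agent.OB

theorem QES_sup {G : Type} [Group G] (K : Subgroup G) (S : Set (G → ℂ)) (hS : S ⊆ IrrOn K)
    (x : G) (hx : x ∉ K) : eS K S x = 0 := by
  unfold eS
  have h1 : (∑ᶠ ψ ∈ S, ψ 1 * ψ x⁻¹) = 0 := by
    refine finsum_mem_eq_zero_of_forall_eq_zero fun ψ hψ => ?_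
    have h2 : ψ x⁻¹ = 0 := (hS hψ).1 x⁻¹ (fun h => hx (K.inv_mem_iff.1 h))
    rw [h2, mul_zero]
  rw [h1, zero_div]

open Classical in
theorem QES_mt (hB2 : B2_stmt) {G : Type} [Group G] [Finite G] (L : Subgroup G) (χ' : G → ℂ)
    (hχ' : χ' ∈ IrrOn L) (ψ : G → ℂ) (hψ : ψ ∈ IrrOn L) :
    mt L χ' ψ = if χ' = ψ then 1 else 0 := by
  obtain ⟨-, hL⟩ := hB2 G L
  obtain ⟨-, -, -, hsup, hort⟩ := hL χ' hχ'
  have h1 : (∑ᶠ x ∈ (L : Set G), χ' x * ψ x⁻¹) = ∑ᶠ x : G, χ' x * ψ x⁻¹ := by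
    refine finsum_congr fun x => ?_
    rw [finsum_eq_if]
    by_cases hx : x ∈ (L : Set G)
    · exact if_pos hx
    · rw [if_neg hx, hsup x hx, zero_mul]
  have h2 : (Nat.card L : ℂ) ≠ 0 := Nat.cast_ne_zero.2 Nat.card_pos.ne'
  unfold mt
  rw [h1, hort ψ hψ]
  by_cases h : χ' = ψ
  · rw [if_pos h, if_pos h, div_self h2]
  · rw [if_neg h, if_neg h, zero_div]

theorem QES (hQRS : QRS_stmt) (hQEK : QEK_stmt) (hB2 : B2_stmt) : QES_stmt := by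
  classical
  intro G _ _ L χ' hχ'
  obtain ⟨-, hL⟩ := hB2 G L
  obtain ⟨-, hcl, -, -, -⟩ := hL χ' hχ'
  have key : ∀ (K : Subgroup G), K ≤ L → ∀ S : Set (G → ℂ), S ⊆ IrrOn K → ∀ g ∈ K,
      ev χ' (eS K S) g = ∑ᶠ ψ ∈ S, mt K χ' ψ * ψ g := by
    intro K hK S hS g hg
    rw [← hQEK G K S hS (fun ψ => mt K χ' ψ) χ' (hQRS G L K hK χ' hχ').2 g hg]
    unfold ev
    refine finsum_congr fun x => ?_
    by_cases hx : x ∈ K
    · have h1 := hcl (g * x) x (hK hx)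
      have h2 : x * (g * x) * x⁻¹ = x * g := by group
      rw [h2] at h1
      rw [h1]
    · rw [QES_sup K S hS x hx, zero_mul, zero_mul]
  refine ⟨key, fun S hS g hg => ⟨fun h => ?_, fun h => ?_⟩⟩
  · rw [key L le_rfl S hS g hg, finsum_eq_single _ χ' (fun ψ hψ => ?_)]
    · have h1 : mt L χ' χ' = 1 := by
        rw [QES_mt hB2 L χ' hχ' χ' hχ', if_pos rfl]
      rw [finsum_eq_if, if_pos h, h1, one_mul]
    · rw [finsum_eq_if]
      by_cases h1 : ψ ∈ S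
      · rw [if_pos h1, QES_mt hB2 L χ' hχ' ψ (hS h1), if_neg (fun h2 => hψ h2.symm), zero_mul]
      · exact if_neg h1
  · rw [key L le_rfl S hS g hg]
    refine finsum_mem_eq_zero_of_forall_eq_zero fun ψ hψ => ?_
    have h1 : ¬ χ' = ψ := fun h2 => h (by rw [h2]; exact hψ)
    rw [QES_mt hB2 L χ' hχ' ψ (hS hψ), if_neg h1, zero_mul]

end Pool.Agent.FI
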